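import Pool.Agent.U79.GZ.Stm2
import Pool.Agent.U678.GZ.DSC2

/-!
# Project GZ, package DSC2G (helper873): the second Selmer group, hypotheses on the twist itself.
The proof follows `Pool.Agent.U678.GZ.DSC2` of helper678.
-/

set_option autoImplicit false
set_option linter.unusedVariables false
set_option linter.unusedSectionVars false

open scoped Classical

namespace Pool.Agent.U873.GZ

open Finset hiding ext
open Pool.Agent.Y703.CQ (nr)
open Pool.Agent.U115.GE (Qs ELS SelSet sel RtG lsol_of_qs qs_scale S_GOOD)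
open Pool.Agent.U115.TP (LSol)
open Pool.Agent.U79.GY (Cfg Ok Hc Sp In Cl s4 Mod cfg)
open Pool.Agent.U79.GZ
open Pool.Agent.U255.GY (ff dv uu xx Hyp eq_uu uu_dvd dv_not xx_zero row ne_of_mem)
open Pool.Agent.U678.GZ

theorem t_DSC2G : S_DSC2G := by
  intro hCFG hREC hNRM hNRM2 hISO hFF a b M w S hCl H hGd
  set c : ℤ := a ^ 2 - 4 * b with hc
  obtain ⟨hOk, hSp, hIn⟩ := hCFG b c M H.hM H.nb H.nc
  set G := cfg b c M with hG
  have hS : ∀ p ∈ S, p.Prime := fun p hp => by
    rcases hCl p hp with h | h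
    · exact h.1
    · exact h.1
  have hSM : ∀ p ∈ S, ¬ p ∣ M := fun p hp => by
    rcases hCl p hp with h | h
    · exact ((hSp p h.1).1 h).1
    · exact ((hIn p h.1).1 h).1
  have hb0 : b ≠ 0 := by
    intro h
    apply H.nb
    rw [h]
    exact ⟨0, by ring⟩
  have hc0 : c ≠ 0 := by
    intro h
    apply H.nc
    rw [← hc, h]
    exact ⟨0, by ring⟩
  set D : ℕ := ∏ p ∈ S, p with hD
  have hDpos : 0 < D := Finset.prod_pos fun p hp => (hS p hp).pos
  have hne2 : ∀ p : ℕ, ¬ p ∣ M → p ≠ 2 := by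
    rintro p hp rfl
    exact hp H.hM.two
  have hbM : ∀ p : ℕ, ¬ p ∣ M → ¬ (p : ℤ) ∣ b := fun p hp h =>
    hp ((Int.natCast_dvd.1 h).trans H.hM.hb)
  have hcM : ∀ p : ℕ, ¬ p ∣ M → ¬ (p : ℤ) ∣ c := fun p hp h =>
    hp ((Int.natCast_dvd.1 h).trans H.hM.hc)
  have h16 : ∀ p : ℕ, p.Prime → ¬ p ∣ M → ¬ p ∣ 16 := by
    intro p hp hpM h
    have h1 : p ∣ 2 := hp.dvd_of_dvd_pow (show p ∣ 2 ^ 4 by norm_num; exact h)
    exact hne2 p hpM ((Nat.prime_dvd_prime_iff_eq hp Nat.prime_two).1 h1)
  have hcc : (-2 * a) ^ 2 - 4 * c = 16 * b := by rw [hc]; ring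
  have hM' : Mod c ((-2 * a) ^ 2 - 4 * c) (16 * M) := by
    rw [hcc]
    refine ⟨by have := H.hM.pos; omega, H.hM.two.mul_left _, H.hM.hc.mul_left _, ?_⟩
    rw [Int.natAbs_mul]
    exact Nat.mul_dvd_mul (dvd_refl _) H.hM.hb
  -- the hypothesis for the dual isogeny
  have hHyp : Hyp (-2 * a) c (16 * M) (Hc G) S := by
    intro p hp
    have hpp := hS p hp
    have := Fact.mk hpp
    have hsq16 : ∀ z : ℤ, IsSquare (((16 * z : ℤ)) : ZMod p) ↔ IsSquare (z : ZMod p) := by
      intro z
      have h4 : (4 : ZMod p) ≠ 0 := by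
        intro h
        have h5 : ((4 : ℕ) : ZMod p) = 0 := by exact_mod_cast h
        rw [ZMod.natCast_eq_zero_iff] at h5
        have h6 : p ∣ 2 := hpp.dvd_of_dvd_pow (show p ∣ 2 ^ 2 by norm_num; exact h5)
        exact hne2 p (hSM p hp) ((Nat.prime_dvd_prime_iff_eq hpp Nat.prime_two).1 h6)
      constructor
      · rintro ⟨s, hs⟩
        refine ⟨s / 4, ?_⟩
        push_cast at hs
        field_simp
        linear_combination hs
      · rintro ⟨s, hs⟩
        refine ⟨4 * s, ?_⟩
        push_cast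
        rw [hs]
        ring
    refine ⟨hpp, ?_, ?_⟩
    · intro h
      rcases (Nat.Prime.dvd_mul hpp).1 h with h | h
      · exact h16 p hpp (hSM p hp) h
      · exact hSM p hp h
    · rw [hcc, hsq16]
      rcases hCl p hp with h | h
      · exact Or.inl ⟨h.2, ((hSp p hpp).1 h).2.2, ((hSp p hpp).1 h).2.1⟩
      · exact Or.inr ⟨(hOk.hB _ h.2).2.2, ((hIn p hpp).1 h).2.2, ((hIn p hpp).1 h).2.1⟩
  have hcD : (a * (D : ℤ)) ^ 2 - 4 * (b * (D : ℤ) ^ 2) = c * (D : ℤ) ^ 2 := by rw [hc]; ring
  have hD0z : (D : ℤ) ≠ 0 := by exact_mod_cast hDpos.ne'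
  have hbD0 : b * (D : ℤ) ^ 2 ≠ 0 := mul_ne_zero hb0 (pow_ne_zero 2 hD0z)
  have hcD0 : (a * (D : ℤ)) ^ 2 - 4 * (b * (D : ℤ) ^ 2) ≠ 0 := by
    rw [hcD]; exact mul_ne_zero hc0 (pow_ne_zero 2 hD0z)
  have hsub : SelSet (-2 * (a * (D : ℤ))) (c * (D : ℤ) ^ 2) ⊆
      {v : ℤ | Vs M v ∧ LS (-2 * (a * D)) (c * D ^ 2) M v} := by
    rintro d ⟨hd, hdR, hdp⟩
    have hLSd : LS (-2 * (a * D)) (c * D ^ 2) M d := ⟨hdR, fun l _ _ => hdp l⟩
    have hAB : -2 * (a * (D : ℤ)) = (-2 * a) * D := by ring
    have hbad : ∀ (l : ℕ) [Fact l.Prime], l ∣ M →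
        Qs ℚ_[l] (-2 * (a * (D : ℤ))) ((a * (D : ℤ)) ^ 2 - 4 * (b * (D : ℤ) ^ 2)) d :=
      fun l _ hl => by rw [hcD]; exact hdp l
    have hR : Qs ℝ (-2 * (a * (D : ℤ))) ((a * (D : ℤ)) ^ 2 - 4 * (b * (D : ℤ) ^ 2)) d := by
      rw [hcD]; exact hdR
    rw [hAB] at hdR hdp
    have hd0 : d ≠ 0 := hd.ne_zero
    have hL : ∀ (l : ℕ) [Fact l.Prime], LSol ((-2 * a) * (D : ℤ)) (c * (D : ℤ) ^ 2) d l :=
      fun l _ => lsol_of_qs hd (hdp l)
    -- the primes dividing `d`
    set T := dv (Hc G) S d with hT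
    have hTS : T ⊆ S := Finset.filter_subset _ _
    have hTp : ∀ q ∈ T, q.Prime := fun q hq => hS q (hTS hq)
    have hu := eq_uu (Hc G) S hS d
    have hTd : ∀ p ∈ T, (p : ℤ) ∣ d := fun p hp => (Finset.mem_filter.1 hp).2.2
    have huc : ∀ p : ℕ, p.Prime → (p : ℤ) ∣ uu (Hc G) S d → (p : ℤ) ∣ c := fun p hp h =>
      uu_dvd hHyp hd hL hp h
    have hdT : ∀ p : ℕ, p.Prime → ¬ p ∣ M → (p : ℤ) ∣ d → p ∈ T := by
      intro p hp hpM h
      rw [hu] at h
      rcases (Nat.prime_iff_prime_int.1 hp).dvd_or_dvd h with h | h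
      · have h1 : p ∣ ∏ q ∈ T, q := by exact_mod_cast h
        obtain ⟨q, hq, h2⟩ := (Prime.dvd_finsetProd_iff hp.prime _).1 h1
        rw [(Nat.prime_dvd_prime_iff_eq hp (hTp q hq)).1 h2]
        exact hq
      · exact absurd (huc p hp h) (hcM p hpM)
    set x' := xx (Hc G) S d with hx'd
    have hx1 : ∀ p ∈ T, x' p = 1 := fun p hp => if_pos hp
    have hx0 : ∀ p, p ∉ T → x' p = 0 := fun p hp => if_neg hp
    have hx' : ∀ p, x' p = 0 := by
      apply transp G (gm M w) (ff a b) S hGd x' (fun p hp => xx_zero hp)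
      intro q hq hqH
      have hqp := hS q hq
      have := Fact.mk hqp
      have hqM := hSM q hq
      have hqSp : Sp G q := ⟨hqp, hqH⟩
      set v := vv M w q with hv
      have hqv : ¬ (q : ℤ) ∣ v := not_dvd_vv hqp hqM w q
      have hLS : LS (a * D) (b * D ^ 2) M (q * v) := H.hL q hqSp
      have hv0 : v ≠ 0 := by
        intro h
        rw [h] at hqv
        exact hqv (dvd_zero _)
      have hx0' : (q : ℤ) * v ≠ 0 := mul_ne_zero (by exact_mod_cast hqp.ne_zero) hv0
      have e1 : hr (q * v) d = 0 :=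
        (hNRM (q * v) d hx0' hd0).1 (by
          obtain ⟨s, t, h⟩ := hISO ℝ (a * D) (b * D ^ 2) (q * v) d hbD0 hcD0 hx0' hd0 hLS.1 hR
          exact ⟨s, t, h⟩)
      have e2 : h2 (q * v) d = 0 := by
        have : Fact (Nat.Prime 2) := ⟨Nat.prime_two⟩
        refine hNRM2 (q * v) d hx0' hd0 ?_
        exact hISO ℚ_[2] (a * D) (b * D ^ 2) (q * v) d hbD0 hcD0 hx0' hd0 (hLS.2 2 H.hM.two) (hbad 2 H.hM.two)
      have e3 : ∀ l : ℕ, l.Prime → l ≠ 2 → l ∣ M → hp l (q * v) d = 0 := by
        intro l hl hl2 hlM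
        have := Fact.mk hl
        refine (hNRM (q * v) d hx0' hd0).2 l hl2 ?_
        exact hISO ℚ_[l] (a * D) (b * D ^ 2) (q * v) d hbD0 hcD0 hx0' hd0 (hLS.2 l hlM) (hbad l hlM)
      have hrec := hREC (q * v) d hx0' hd0
      rw [e1, e2, zero_add, zero_add] at hrec
      have hsum : ∑ p ∈ insert q T, hp p (q * v) d = 0 := by
        rw [← hrec]
        apply Finset.sum_subset
        · intro p hp
          rw [Finset.mem_erase, Nat.mem_primeFactors]
          rcases Finset.mem_insert.1 hp with rfl | hp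
          · refine ⟨hne2 _ hqM, hqp, ?_, ?_⟩
            · exact Int.natCast_dvd.1 ((dvd_mul_right _ _).mul_right _)
            · exact Int.natAbs_ne_zero.2 (mul_ne_zero hx0' hd0)
          · refine ⟨hne2 _ (hSM p (hTS hp)), hTp p hp, ?_, ?_⟩
            · exact Int.natCast_dvd.1 ((hTd p hp).mul_left _)
            · exact Int.natAbs_ne_zero.2 (mul_ne_zero hx0' hd0)
        · intro p hp hpn
          rw [Finset.mem_erase, Nat.mem_primeFactors] at hp
          obtain ⟨hp2, hpp, -, -⟩ := hp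
          rw [Finset.mem_insert, not_or] at hpn
          by_cases hpM : p ∣ M
          · exact e3 p hpp hp2 hpM
          · apply hp00
            · intro h
              rcases (Nat.prime_iff_prime_int.1 hpp).dvd_or_dvd h with h | h
              · have h1 : p ∣ q := by exact_mod_cast h
                exact hpn.1 ((Nat.prime_dvd_prime_iff_eq hpp hqp).1 h1)
              · exact not_dvd_vv hpp hpM w q h
            · intro h
              exact hpn.2 (hdT p hpp hpM h)
      -- the cofactor of `p ∈ T`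
      have hcof : ∀ p ∈ T, ∃ d1 : ℤ, d = p * d1 ∧ ¬ (p : ℤ) ∣ d1 ∧
          d1 = ((∏ r ∈ T.erase p, r : ℕ) : ℤ) * uu (Hc G) S d := by
        intro p hp
        have hdd : d = p * (((∏ r ∈ T.erase p, r : ℕ) : ℤ) * uu (Hc G) S d) := by
          conv_lhs => rw [hu]
          rw [← Finset.mul_prod_erase T (fun q => q) hp]
          push_cast
          ring
        refine ⟨_, hdd, ?_, rfl⟩
        intro h
        have h4 : (p : ℤ) * p ∣ d := by
          conv_rhs => rw [hdd]
          exact mul_dvd_mul_left _ h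
        exact (Nat.prime_iff_prime_int.1 (hTp p hp)).not_isUnit (hd _ h4)
      have hval : ∀ p ∈ T, p ≠ q → hp p (q * v) d = BB (gm M w) (ff a b) S p q := by
        intro p hp hpq
        obtain ⟨d1, hdd, hd1, -⟩ := hcof p hp
        have hpp := hTp p hp
        have := Fact.mk hpp
        have hpM := hSM p (hTS hp)
        have hpq' : ¬ (p : ℤ) ∣ (q : ℤ) := by
          intro h
          have h1 : p ∣ q := by exact_mod_cast h
          exact hpq ((Nat.prime_dvd_prime_iff_eq hpp hqp).1 h1)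
        have hpv : ¬ (p : ℤ) ∣ v := not_dvd_vv hpp hpM w q
        rw [hdd, hp01 ?_ hd1, nz_mul hpq' hpv, nz_nat, nz_vv hpM, BB, if_neg (Ne.symm hpq)]
        intro h
        rcases (Nat.prime_iff_prime_int.1 hpp).dvd_or_dvd h with h | h
        · exact hpq' h
        · exact hpv h
      -- the row of `q`
      have hrow : ∑ r ∈ S, nr q r * (x' r + x' q) + ff (-2 * a) c q * x' q =
          nz q (uu (Hc G) S d) := row hM' hHyp hd hL hq hqH
      have hff : ff (-2 * a) c q = ff a b q + s4 q := by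
        have h1 := (hSp q hqp).1 hqSp
        refine hFF a b q hqp (hne2 q hqM) ?_ ?_ h1.2.1 h1.2.2
        · rw [Ne, ZMod.intCast_zmod_eq_zero_iff_dvd]
          exact hbM q hqM
        · rw [Ne, ZMod.intCast_zmod_eq_zero_iff_dvd]
          exact hcM q hqM
      have hnu : ¬ (q : ℤ) ∣ uu (Hc G) S d := dv_not hS hd hq hqH
      have hxsum : ∀ U : Finset ℕ, ∑ r ∈ U, nr q r * x' r =
          ∑ r ∈ U.filter (· ∈ T), nr q r := by
        intro U
        rw [Finset.sum_filter]
        refine Finset.sum_congr rfl fun r _ => ?_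
        by_cases hr : r ∈ T
        · rw [hx1 r hr, if_pos hr, mul_one]
        · rw [hx0 r hr, if_neg hr, mul_zero]
      have hvq : hp q (q * v) d = x' q * BB (gm M w) (ff a b) S q q := by
        by_cases hqT : q ∈ T
        · obtain ⟨d1, hdd, hd1, hd1'⟩ := hcof q hqT
          have hzd1 : nz q d1 = ∑ r ∈ T.erase q, nr q r + nz q (uu (Hc G) S d) := by
            rw [hd1', nz_mul ?_ hnu]
            · congr 1
              exact Pool.Agent.U255.GY.nz_prod (fun r hr => hTp r (Finset.mem_of_mem_erase hr))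
                (Finset.notMem_erase q _)
            · intro h
              exact ne_of_mem (fun r hr => hTp r (Finset.mem_of_mem_erase hr))
                (Finset.notMem_erase q _) ((ZMod.intCast_zmod_eq_zero_iff_dvd _ _).2 h)
          have hrow' : nz q (uu (Hc G) S d) =
              ∑ r ∈ T.erase q, nr q r + ∑ r ∈ S.erase q, nr q r + (ff a b q + s4 q) := by
            rw [← hrow, hff, hx1 q hqT, mul_one]
            congr 1
            rw [← Finset.add_sum_erase S _ hq, hx1 q hqT,
              show (1 : ZMod 2) + 1 = 0 by decide, mul_zero, zero_add]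
            have h6 : ∑ r ∈ S.erase q, nr q r * (x' r + 1) =
                ∑ r ∈ S.erase q, nr q r * x' r + ∑ r ∈ S.erase q, nr q r := by
              rw [← Finset.sum_add_distrib]
              exact Finset.sum_congr rfl fun r _ => by ring
            rw [h6, hxsum]
            congr 2
            ext r
            simp only [Finset.mem_filter, Finset.mem_erase]
            constructor
            · rintro ⟨⟨h1, -⟩, h2⟩
              exact ⟨h1, h2⟩
            · rintro ⟨h1, h2⟩
              exact ⟨⟨h1, hTS h2⟩, h2⟩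
          rw [hdd, hp11 hqv hd1, hzd1, hrow', nz_vv hqM, hx1 q hqT, one_mul, BB, if_pos rfl]
          generalize ∑ r ∈ T.erase q, nr q r = A1
          generalize ∑ r ∈ S.erase q, nr q r = A2
          generalize s4 q = A3
          generalize gm M w q q = A4
          generalize ff a b q = A5
          revert A1 A2 A3 A4 A5
          decide
        · have hqd : ¬ (q : ℤ) ∣ d := fun h => hqT (hdT q hqp hqM h)
          rw [hp10 hqv hqd, hx0 q hqT, zero_mul]
          have h1 : ¬ (q : ℤ) ∣ ((∏ r ∈ T, r : ℕ) : ℤ) := by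
            intro h
            exact ne_of_mem hTp hqT ((ZMod.intCast_zmod_eq_zero_iff_dvd _ _).2 h)
          have h2 : nz q ((∏ r ∈ T, r : ℕ) : ℤ) = ∑ r ∈ T, nr q r :=
            Pool.Agent.U255.GY.nz_prod hTp hqT
          rw [hu, nz_mul h1 hnu, h2]
          rw [← hrow, hx0 q hqT]
          simp only [add_zero, mul_zero]
          rw [hxsum]
          have h6 : S.filter (· ∈ T) = T := by
            ext r
            simp only [Finset.mem_filter]
            exact ⟨fun h => h.2, fun h => ⟨hTS h, h⟩⟩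
          rw [h6, CharTwo.add_self_eq_zero]
      -- the column
      have hcol : ∑ p ∈ S, x' p * BB (gm M w) (ff a b) S p q =
          ∑ p ∈ T, BB (gm M w) (ff a b) S p q := by
        have h6 : S.filter (· ∈ T) = T := by
          ext r
          simp only [Finset.mem_filter]
          exact ⟨fun h => h.2, fun h => ⟨hTS h, h⟩⟩
        conv_rhs => rw [← h6]
        rw [Finset.sum_filter]
        refine Finset.sum_congr rfl fun r _ => ?_
        by_cases hr : r ∈ T
        · rw [hx1 r hr, if_pos hr, one_mul]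
        · rw [hx0 r hr, if_neg hr, zero_mul]
      rw [hcol, ← hsum]
      by_cases hqT : q ∈ T
      · rw [Finset.insert_eq_of_mem hqT]
        refine Finset.sum_congr rfl fun p hp => ?_
        by_cases hpq : p = q
        · rw [hpq, hvq, hx1 q hqT, one_mul]
        · exact (hval p hp hpq).symm
      · rw [Finset.sum_insert hqT, hvq, hx0 q hqT, zero_mul, zero_add]
        refine Finset.sum_congr rfl fun p hp => ?_
        refine (hval p hp ?_).symm
        rintro rfl
        exact hqT hp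
    have hTe : T = ∅ := by
      rw [Finset.eq_empty_iff_forall_notMem]
      intro p hp
      have h1 := hx1 p hp
      rw [hx' p] at h1
      exact zero_ne_one h1
    refine ⟨⟨hd, fun l hl h => ?_⟩, hLSd⟩
    by_contra hlM
    have h1 := hdT l hl hlM h
    rw [hTe] at h1
    exact Finset.notMem_empty _ h1
  unfold sel
  have hfin : {v : ℤ | Vs M v ∧ LS (-2 * (a * D)) (c * D ^ 2) M v}.Finite := by
    refine (Set.finite_Icc (-(M : ℤ)) M).subset ?_
    rintro v ⟨⟨hv, hvM⟩, -⟩
    have h1 : v.natAbs ∣ M := by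
      have hsq : Squarefree v.natAbs := Int.squarefree_natAbs.2 hv
      rw [← Nat.prod_primeFactors_of_squarefree hsq]
      refine Finset.prod_primes_dvd _ (fun p hp => (Nat.prime_of_mem_primeFactors hp).prime) ?_
      intro p hp
      exact hvM p (Nat.prime_of_mem_primeFactors hp)
        (Int.natCast_dvd.2 (Nat.dvd_of_mem_primeFactors hp))
    have h2 : v.natAbs ≤ M := Nat.le_of_dvd H.hM.pos h1
    rw [Set.mem_Icc]
    omega
  exact (Set.ncard_le_ncard hsub hfin).trans H.s2

end Pool.Agent.U873.GZ
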